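import Pool.Agent.Y887.QK.StmD

/-!
Project T2, second part: the form determines the prime and the point (adapted from
`Pool.Agent.Y391.T2.Inj` by helper391).
-/

set_option autoImplicit false

namespace Pool.Agent.Y155.T2

open Pool.Agent.Y887.QKS

theorem nd {ℓ x : ℕ} (h0 : 0 < x) (h1 : x < ℓ) : ¬ ℓ ∣ x := fun h =>
  absurd (Nat.le_of_dvd h0 h) (not_le.2 h1)

/-- the sizes -/
theorem sizes {D ℓ W : ℤ} (hD : D ≠ 0) (hW : 1 ≤ W) (h : 2 * (|D| + 1) * W ≤ ℓ) :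
    4 * W ≤ ℓ ∧ 16 * (|D| * W ^ 2) ≤ ℓ ^ 2 ∧ 15 * ℓ ^ 2 ≤ 16 * (ℓ ^ 2 - D * W ^ 2) := by
  have hD1 : 1 ≤ |D| := Int.one_le_abs hD
  have h1 : 4 * W ≤ ℓ := by
    have := mul_nonneg (sub_nonneg.2 hD1) (by linarith : (0 : ℤ) ≤ W)
    linarith
  have h2 : 16 * (|D| * W ^ 2) ≤ ℓ ^ 2 := by
    have h3 : (2 * (|D| + 1) * W) ^ 2 ≤ ℓ ^ 2 := by
      apply pow_le_pow_left₀ _ h
      positivity
    have h4 : 0 ≤ (|D| - 1) ^ 2 * W ^ 2 := by positivity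
    linarith
  have h5 : D * W ^ 2 ≤ |D| * W ^ 2 := mul_le_mul_of_nonneg_right (le_abs_self D) (sq_nonneg W)
  exact ⟨h1, h2, by linarith⟩

/-- the numbers are given by the formulas -/
theorem exact {D : ℤ} {Q ℓ b v : ℕ} (hD : D ≠ 0) (hQ : 0 < Q) (hℓ : 0 < ℓ) (hb : 0 < b)
    (hv : 0 < v) (h : 2 * (D.natAbs + 1) * (Q * v) ≤ ℓ)
    (h1 : ℓ * dK Q ℓ b v = 1 + (Q * v) * (Q * b)) :
    (alD D Q ℓ v : ℤ) = (ℓ : ℤ) ^ 2 - D * (Q * v) ^ 2 ∧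
    (kD D Q ℓ b v : ℤ) = (ℓ : ℤ) * (Q * b) - D * (Q * v) * (dK Q ℓ b v : ℤ) := by
  have hQv : 1 ≤ Q * v := Nat.mul_pos hQ hv
  have hQb : 1 ≤ Q * b := Nat.mul_pos hQ hb
  obtain ⟨W, hW⟩ : ∃ W : ℤ, W = (Q : ℤ) * v := ⟨_, rfl⟩
  obtain ⟨B, hB⟩ : ∃ B : ℤ, B = (Q : ℤ) * b := ⟨_, rfl⟩
  have hW1 : 1 ≤ W := by rw [hW]; exact_mod_cast hQv
  have hB1 : 1 ≤ B := by rw [hB]; exact_mod_cast hQb
  have h' : 2 * (|D| + 1) * W ≤ ℓ := by
    rw [hW, Int.abs_eq_natAbs]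
    exact_mod_cast h
  have h1' : (ℓ : ℤ) * (dK Q ℓ b v : ℤ) = 1 + W * B := by
    rw [hW, hB]
    exact_mod_cast h1
  obtain ⟨s1, s2, s3⟩ := sizes hD hW1 h'
  have hℓ1 : (1 : ℤ) ≤ ℓ := by exact_mod_cast hℓ
  have hℓ2 : (1 : ℤ) ≤ (ℓ : ℤ) ^ 2 := one_le_pow₀ hℓ1
  constructor
  · unfold alD
    rw [Int.toNat_of_nonneg]
    · push_cast
      ring
    · push_cast
      rw [← hW]
      linarith
  · unfold kD
    rw [Int.toNat_of_nonneg]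
    · push_cast
      ring
    · push_cast
      rw [← hW, ← hB]
      have e : (ℓ : ℤ) * (ℓ * B - D * W * (dK Q ℓ b v : ℤ)) = B * (ℓ ^ 2 - D * W ^ 2) - D * W := by
        linear_combination (-(D * W)) * h1'
      have e1 : D * W ≤ |D| * W ^ 2 := by
        calc D * W ≤ |D| * W := mul_le_mul_of_nonneg_right (le_abs_self D) (by linarith)
          _ ≤ |D| * W ^ 2 := by
            apply mul_le_mul_of_nonneg_left _ (abs_nonneg D)
            exact le_self_pow₀ hW1 (by norm_num)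
      have e2 : 1 * (ℓ ^ 2 - D * W ^ 2) ≤ B * ((ℓ : ℤ) ^ 2 - D * W ^ 2) :=
        mul_le_mul_of_nonneg_right hB1 (by linarith)
      have e3 : 0 ≤ (ℓ : ℤ) * (ℓ * B - D * W * (dK Q ℓ b v : ℤ)) := by
        rw [e]
        linarith
      exact nonneg_of_mul_nonneg_right e3 (by linarith)

/-- The form determines the prime and the point. -/
theorem t_injD : S_injD := by
  intro D Q ℓ ℓ' b v b' v' hD hQ hℓ hℓ' hQℓ hDℓ hQℓ' hDℓ' hb hbℓ hv hvW hb' hbℓ' hv' hvW' h1 h2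
    hal hdvd
  obtain ⟨x1, x2⟩ := exact hD hQ hℓ.pos hb hv hvW h1
  obtain ⟨x1', x2'⟩ := exact hD hQ hℓ'.pos hb' hv' hvW' h2
  have hal' : (ℓ : ℤ) ^ 2 - D * (Q * v) ^ 2 = ℓ' ^ 2 - D * (Q * v') ^ 2 := by
    rw [← x1, ← x1', hal]
  rw [x1, x2, x2'] at hdvd
  generalize dK Q ℓ b v = d at h1 hdvd
  generalize dK Q ℓ' b' v' = d' at h2 hdvd
  have h1' : (ℓ : ℤ) * d = 1 + (Q * v) * (Q * b) := by exact_mod_cast h1
  have h2' : (ℓ' : ℤ) * d' = 1 + (Q * v') * (Q * b') := by exact_mod_cast h2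
  have hvℓ : v < ℓ := by
    have f1 : v ≤ Q * v := Nat.le_mul_of_pos_left v hQ
    have f2 : 2 * (Q * v) ≤ 2 * (D.natAbs + 1) * (Q * v) :=
      Nat.mul_le_mul_right _ (by omega)
    omega
  obtain ⟨al, halz⟩ : ∃ al : ℤ, al = (ℓ : ℤ) ^ 2 - D * (Q * v) ^ 2 := ⟨_, rfl⟩
  obtain ⟨k, hk⟩ : ∃ k : ℤ, k = ℓ * (Q * b) - D * (Q * v) * d := ⟨_, rfl⟩
  obtain ⟨k', hk'⟩ : ∃ k' : ℤ, k' = ℓ' * (Q * b') - D * (Q * v') * d' := ⟨_, rfl⟩
  rw [← halz, ← hk, ← hk'] at hdvd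
  have i1 : k * (Q * v) + ℓ = d * al := by
    rw [hk, halz]
    linear_combination (-(ℓ : ℤ)) * h1'
  have i2 : k' * (Q * v') + ℓ' = d' * al := by
    rw [hk', halz, hal']
    linear_combination (-(ℓ' : ℤ)) * h2'
  have i3 : al ∣ k * (Q * v') + ℓ' := by
    have : k * (Q * v') + ℓ' = (k - k') * (Q * v') + d' * al := by
      rw [← i2]
      ring
    rw [this]
    exact dvd_add (hdvd.mul_right _) (dvd_mul_left _ _)
  have i4 : al ∣ k * (Q * v * ℓ' - Q * v' * ℓ) := by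
    have : k * (Q * v * ℓ' - Q * v' * ℓ) =
        ℓ' * (k * (Q * v) + ℓ) - ℓ * (k * (Q * v') + ℓ') := by ring
    rw [this]
    refine dvd_sub (Dvd.dvd.mul_left ?_ _) (i3.mul_left _)
    rw [i1]
    exact dvd_mul_left _ _
  -- coprimality
  have hcop : IsCoprime al k := by
    rw [Int.isCoprime_iff_gcd_eq_one]
    have g1 : (Int.gcd al k : ℤ) ∣ ℓ := by
      have : (ℓ : ℤ) = d * al - k * (Q * v) := by rw [← i1]; ring
      rw [this]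
      exact dvd_sub ((Int.gcd_dvd_left _ _).mul_left _) ((Int.gcd_dvd_right _ _).mul_right _)
    have g2 : Int.gcd al k ∣ ℓ := by exact_mod_cast g1
    rcases (Nat.dvd_prime hℓ).1 g2 with g3 | g3
    · exact g3
    · exfalso
      have g4 : (ℓ : ℤ) ∣ al := by
        have := Int.gcd_dvd_left al k
        rwa [g3] at this
      have g5 : (ℓ : ℤ) ∣ D * (Q * v) ^ 2 := by
        have : (D : ℤ) * (Q * v) ^ 2 = ℓ * ℓ - al := by rw [halz]; ring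
        rw [this]
        exact dvd_sub (dvd_mul_right _ _) g4
      have g6 : ℓ ∣ D.natAbs * (Q * v) ^ 2 := by
        have f1 := Int.natAbs_dvd_natAbs.2 g5
        rw [Int.natAbs_mul, Int.natAbs_pow, Int.natAbs_mul, Int.natAbs_natCast,
          Int.natAbs_natCast, Int.natAbs_natCast] at f1
        exact f1
      rcases (Nat.Prime.dvd_mul hℓ).1 g6 with g7 | g7
      · exact nd (Int.natAbs_pos.2 hD) hDℓ g7
      · rcases (Nat.Prime.dvd_mul hℓ).1 (hℓ.dvd_of_dvd_pow g7) with g8 | g8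
        · exact nd hQ hQℓ g8
        · exact nd hv hvℓ g8
  have i5 : al ∣ Q * v * ℓ' - Q * v' * ℓ := hcop.dvd_of_dvd_mul_left i4
  have pQ : (1 : ℤ) ≤ Q := by exact_mod_cast hQ
  have pv : (1 : ℤ) ≤ v := by exact_mod_cast hv
  have pv' : (1 : ℤ) ≤ v' := by exact_mod_cast hv'
  have pl : (1 : ℤ) ≤ ℓ := by exact_mod_cast hℓ.one_le
  have pl' : (1 : ℤ) ≤ ℓ' := by exact_mod_cast hℓ'.one_le
  have pW : (1 : ℤ) ≤ Q * v := one_le_mul_of_one_le_of_one_le pQ pv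
  have pW' : (1 : ℤ) ≤ Q * v' := one_le_mul_of_one_le_of_one_le pQ pv'
  have hs : 2 * (|D| + 1) * ((Q : ℤ) * v) ≤ ℓ := by
    rw [Int.abs_eq_natAbs]
    exact_mod_cast hvW
  have hs' : 2 * (|D| + 1) * ((Q : ℤ) * v') ≤ ℓ' := by
    rw [Int.abs_eq_natAbs]
    exact_mod_cast hvW'
  obtain ⟨W, hW⟩ : ∃ W : ℤ, W = Q * v := ⟨_, rfl⟩
  obtain ⟨W', hW'⟩ : ∃ W' : ℤ, W' = Q * v' := ⟨_, rfl⟩
  rw [← hW] at pW halz i5 hal' hs
  rw [← hW'] at pW' i5 hal' hs'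
  obtain ⟨s1, -, s3⟩ := sizes hD pW hs
  obtain ⟨s1', -, s3'⟩ := sizes hD pW' hs'
  rw [← hal', ← halz] at s3'
  rw [← halz] at s3
  have hl2 : (1 : ℤ) ≤ (ℓ : ℤ) ^ 2 := one_le_pow₀ pl
  have j3 : |W * ℓ' - W' * ℓ| < al := by
    have f0 : 2 * ((ℓ : ℤ) * ℓ') ≤ ℓ ^ 2 + ℓ' ^ 2 := by
      have f1 := sq_nonneg ((ℓ : ℤ) - ℓ')
      rw [sub_sq] at f1
      linarith
    have e1 : W * ℓ' < al := by
      have f1 : 4 * W * ℓ' ≤ ℓ * ℓ' := mul_le_mul_of_nonneg_right s1 (by linarith)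
      linarith
    have e2 : W' * ℓ < al := by
      have f1 : 4 * W' * ℓ ≤ ℓ' * ℓ := mul_le_mul_of_nonneg_right s1' (by linarith)
      linarith
    have e3 : 0 < W * ℓ' := by positivity
    have e4 : 0 < W' * ℓ := by positivity
    rw [abs_lt]
    constructor <;> linarith
  have i6 : W * ℓ' - W' * ℓ = 0 := Int.eq_zero_of_abs_lt_dvd i5 j3
  have i7 : W * ℓ' = W' * ℓ := by linarith
  have i8 : al * ((ℓ' : ℤ) ^ 2 - ℓ ^ 2) = 0 := by
    have e1 : al * (ℓ' : ℤ) ^ 2 = ℓ ^ 2 * ℓ' ^ 2 - D * (W * ℓ') ^ 2 := by rw [halz]; ring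
    have e2 : al * (ℓ : ℤ) ^ 2 = ℓ ^ 2 * ℓ' ^ 2 - D * (W' * ℓ) ^ 2 := by rw [halz, hal']; ring
    rw [mul_sub, e1, e2, i7]
    ring
  have hal0 : al ≠ 0 := by
    have : 0 < al := by linarith
    exact this.ne'
  have i9 : (ℓ' : ℤ) ^ 2 = ℓ ^ 2 := by
    have := (mul_eq_zero.1 i8).resolve_left hal0
    linarith
  have i10 : ℓ' = ℓ := by
    have e1 : ℓ' ^ 2 = ℓ ^ 2 := by exact_mod_cast i9
    exact Nat.pow_left_injective (by norm_num : 2 ≠ 0) e1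
  subst i10
  have i11 : v = v' := by
    have e1 : W = W' := mul_right_cancel₀ (by positivity : (ℓ' : ℤ) ≠ 0) i7
    rw [hW, hW'] at e1
    have e2 : (v : ℤ) = v' := mul_left_cancel₀ (by positivity : (Q : ℤ) ≠ 0) e1
    exact_mod_cast e2
  subst i11
  refine ⟨rfl, rfl, ?_⟩
  have i12 : (ℓ' : ℤ) ∣ (Q * v * Q : ℕ) * ((b : ℤ) - b') := by
    have : ((Q * v * Q : ℕ) : ℤ) * ((b : ℤ) - b') = ℓ' * (d - d') := by
      push_cast
      linear_combination h2' - h1'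
    rw [this]
    exact dvd_mul_right _ _
  have i13 : (ℓ' : ℤ) ∣ (b : ℤ) - b' := by
    rcases (Nat.prime_iff_prime_int.1 hℓ).dvd_or_dvd i12 with e | e
    · exfalso
      have e' : ℓ' ∣ Q * v * Q := by exact_mod_cast e
      rcases (Nat.Prime.dvd_mul hℓ).1 e' with e1 | e1
      · rcases (Nat.Prime.dvd_mul hℓ).1 e1 with e2 | e2
        · exact nd hQ hQℓ e2
        · exact nd hv hvℓ e2
      · exact nd hQ hQℓ e1
    · exact e
  have i14 : |(b : ℤ) - b'| < ℓ' := by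
    have f1 : (0 : ℤ) < b := by exact_mod_cast hb
    have f2 : (0 : ℤ) < b' := by exact_mod_cast hb'
    have f3 : (b : ℤ) < ℓ' := by exact_mod_cast hbℓ
    have f4 : (b' : ℤ) < ℓ' := by exact_mod_cast hbℓ'
    rw [abs_lt]
    constructor <;> linarith
  have i15 := Int.eq_zero_of_abs_lt_dvd i13 i14
  exact_mod_cast sub_eq_zero.1 i15

end Pool.Agent.Y155.T2
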